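import Pool.Agent.TH935.LP.L1
import Pool.Agent.H807R2.Dav1

set_option autoImplicit false

/-! Project GJ (helper883), job BILMAJ, first part: separation of the variables in short classes. -/

namespace Pool.Agent.Y183.GJ

open Finset
open Pool.Agent.H807R2.Dav (ee dd dd_le norm_ee ee_add)
open Pool.Agent.TH935.LD (tau_pow_sum)
open Pool.Agent.TH935.DSB (tau_mul)

/-- the class of `m` -/
noncomputable def ci (δ : ℝ) (m : ℕ) : ℕ := ⌊Real.log m / δ⌋₊

/-- the left end of a class -/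
noncomputable def gi (δ : ℝ) (i : ℕ) : ℝ := Real.exp (i * δ)

/-- the length of the sums over `k` -/
noncomputable def Yi (δ : ℝ) (N i : ℕ) : ℕ := ⌊(N : ℝ) / gi δ (i + 1)⌋₊

/-- the length of the sums over `m` -/
noncomputable def Xi (δ : ℝ) (i : ℕ) : ℕ := ⌊gi δ (i + 1)⌋₊

lemma gi_pos (δ : ℝ) (i : ℕ) : 0 < gi δ i := Real.exp_pos _

lemma gi_succ (δ : ℝ) (i : ℕ) : gi δ (i + 1) = gi δ i * Real.exp δ := by
  unfold gi
  rw [← Real.exp_add]
  congr 1
  push_cast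
  ring

lemma gi_le {δ : ℝ} (hδ : 0 < δ) {m : ℕ} (hm : 1 ≤ m) : gi δ (ci δ m) ≤ m := by
  have hm0 : (0 : ℝ) < m := by exact_mod_cast hm
  have h1 : ((ci δ m : ℕ) : ℝ) ≤ Real.log m / δ :=
    Nat.floor_le (div_nonneg (Real.log_natCast_nonneg m) hδ.le)
  rw [le_div_iff₀ hδ] at h1
  calc gi δ (ci δ m) ≤ Real.exp (Real.log m) := Real.exp_le_exp.2 h1
    _ = m := Real.exp_log hm0

lemma lt_gi {δ : ℝ} (hδ : 0 < δ) {m : ℕ} (hm : 1 ≤ m) : (m : ℝ) < gi δ (ci δ m + 1) := by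
  have hm0 : (0 : ℝ) < m := by exact_mod_cast hm
  have h1 : Real.log m / δ < (ci δ m : ℝ) + 1 := Nat.lt_floor_add_one _
  rw [div_lt_iff₀ hδ] at h1
  calc (m : ℝ) = Real.exp (Real.log m) := (Real.exp_log hm0).symm
    _ < gi δ (ci δ m + 1) := by
      refine Real.exp_lt_exp.2 ?_
      push_cast
      exact h1

lemma dirC (X : ℕ) (F : ℕ → ℕ → ℂ) :
    ∑ n ∈ Icc 1 X, ∑ d ∈ n.divisors, F d (n / d) = ∑ d ∈ Icc 1 X, ∑ m ∈ Icc 1 (X / d), F d m := by
  have hre := Pool.Agent.TH935.DSB.dir X (fun d m => (F d m).re)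
  have him := Pool.Agent.TH935.DSB.dir X (fun d m => (F d m).im)
  apply Complex.ext
  · simp only [Complex.re_sum]
    exact hre
  · simp only [Complex.im_sum]
    exact him

/-- the error of the separation of the variables -/
noncomputable def Dm (δ : ℝ) (N : ℕ) (η : ℝ) (m k : ℕ) : ℂ :=
  ee ((m * k : ℕ) * η) - if k ≤ Yi δ N (ci δ m) then ee (gi δ (ci δ m) * k * η) else 0

lemma ee_sub (x y : ℝ) : ‖ee x - ee y‖ ≤ 7 * |x - y| := by
  have h1 : ee x - ee y = ee y * (-(1 - ee (x - y))) := by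
    have h2 : ee x = ee y * ee (x - y) := by
      rw [← ee_add]
      congr 1
      ring
    rw [h2]
    ring
  rw [h1, norm_mul, norm_ee, one_mul, norm_neg]
  have h3 := dd_le (x - y)
  have h4 : 2 * Real.pi ≤ 7 := by
    have := Real.pi_lt_d2
    linarith
  unfold dd at h3
  exact h3.trans (mul_le_mul_of_nonneg_right h4 (abs_nonneg _))

open Classical in
lemma D_le {δ η E : ℝ} {N m k : ℕ} (hδ : 0 < δ) (hm : 1 ≤ m)
    (hmk : m * k ≤ N) (hη : N * |η| ≤ E) :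
    ‖Dm δ N η m k‖ ≤ (if (1 - δ) * N ≤ ((m * k : ℕ) : ℝ) then 1 else 0) + 7 * (E * δ) := by
  have hm0 : (0 : ℝ) < m := by exact_mod_cast hm
  have hg1 := gi_le hδ hm
  have hg2 := lt_gi hδ hm
  have hexp : 1 - δ ≤ Real.exp (-δ) := by
    have := Real.add_one_le_exp (-δ)
    linarith
  have hee : Real.exp δ * Real.exp (-δ) = 1 := by
    rw [← Real.exp_add, add_neg_cancel, Real.exp_zero]
  have hmkN : ((m * k : ℕ) : ℝ) ≤ N := by exact_mod_cast hmk
  have hE : 0 ≤ E := le_trans (by positivity) hη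
  have hif : (0 : ℝ) ≤ (if (1 - δ) * N ≤ ((m * k : ℕ) : ℝ) then 1 else 0) := by
    split_ifs <;> norm_num
  unfold Dm
  by_cases hk : k ≤ Yi δ N (ci δ m)
  · rw [if_pos hk]
    refine (ee_sub _ _).trans ?_
    have h1 : ((m * k : ℕ) : ℝ) * η - gi δ (ci δ m) * k * η = (m - gi δ (ci δ m)) * k * η := by
      push_cast
      ring
    have h2 : (m : ℝ) - gi δ (ci δ m) ≤ m * δ := by
      have h3 : gi δ (ci δ m) = gi δ (ci δ m + 1) * Real.exp (-δ) := by
        rw [gi_succ, mul_assoc, hee, mul_one]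
      have h4 : (m : ℝ) * (1 - δ) ≤ gi δ (ci δ m) := by
        rw [h3]
        calc (m : ℝ) * (1 - δ) ≤ m * Real.exp (-δ) := mul_le_mul_of_nonneg_left hexp hm0.le
          _ ≤ _ := mul_le_mul_of_nonneg_right hg2.le (Real.exp_pos _).le
      linarith
    rw [h1, abs_mul, abs_mul, abs_of_nonneg (sub_nonneg.2 hg1), Nat.abs_cast]
    have h5 : ((m : ℝ) - gi δ (ci δ m)) * k * |η| ≤ E * δ := by
      calc ((m : ℝ) - gi δ (ci δ m)) * k * |η| ≤ (m * δ) * k * |η| :=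
            mul_le_mul_of_nonneg_right (mul_le_mul_of_nonneg_right h2 (Nat.cast_nonneg _))
              (abs_nonneg _)
        _ = ((m * k : ℕ) : ℝ) * |η| * δ := by
          push_cast
          ring
        _ ≤ (N * |η|) * δ := mul_le_mul_of_nonneg_right
            (mul_le_mul_of_nonneg_right hmkN (abs_nonneg _)) hδ.le
        _ ≤ E * δ := mul_le_mul_of_nonneg_right hη hδ.le
    linarith
  · rw [if_neg hk, sub_zero, norm_ee, if_pos]
    · have : 0 ≤ E * δ := by positivity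
      linarith
    · unfold Yi at hk
      have h1 : (N : ℝ) / gi δ (ci δ m + 1) < k := Nat.lt_of_floor_lt (not_le.1 hk)
      rw [div_lt_iff₀ (gi_pos _ _), gi_succ] at h1
      have h2 : (N : ℝ) * Real.exp (-δ) ≤ k * gi δ (ci δ m) := by
        calc (N : ℝ) * Real.exp (-δ) ≤ (k * (gi δ (ci δ m) * Real.exp δ)) * Real.exp (-δ) :=
              mul_le_mul_of_nonneg_right h1.le (Real.exp_pos _).le
          _ = k * gi δ (ci δ m) * (Real.exp δ * Real.exp (-δ)) := by ring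
          _ = _ := by rw [hee, mul_one]
      calc (1 - δ) * N ≤ N * Real.exp (-δ) := by
            rw [mul_comm]
            exact mul_le_mul_of_nonneg_left hexp (Nat.cast_nonneg _)
        _ ≤ k * gi δ (ci δ m) := h2
        _ ≤ k * m := mul_le_mul_of_nonneg_left hg1 (Nat.cast_nonneg _)
        _ = ((m * k : ℕ) : ℝ) := by
          push_cast
          ring

/-- the coefficients of the error -/
noncomputable def wn (δ : ℝ) (N : ℕ) (η : ℝ) (a b : ℕ → ℂ) (n : ℕ) : ℂ :=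
  ∑ d ∈ n.divisors, a d * b (n / d) * Dm δ N η d (n / d)

open Classical in
lemma w_le {δ η E ℓ : ℝ} {N n : ℕ} (hδ : 0 < δ) (hη : N * |η| ≤ E) {a b : ℕ → ℂ}
    (ha : ∀ m ∈ Icc 1 N, ‖a m‖ ≤ ℓ * (m.divisors.card : ℝ))
    (hb : ∀ m ∈ Icc 1 N, ‖b m‖ ≤ ℓ * (m.divisors.card : ℝ)) (hℓ : 0 ≤ ℓ) (hn : n ∈ Icc 1 N) :
    ‖wn δ N η a b n‖ ≤ ℓ ^ 2 * (n.divisors.card : ℝ) ^ 3 *
      ((if (1 - δ) * N ≤ (n : ℝ) then 1 else 0) + 7 * (E * δ)) := by
  rw [mem_Icc] at hn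
  have hE : 0 ≤ E := le_trans (by positivity) hη
  have hif : (0 : ℝ) ≤ (if (1 - δ) * N ≤ (n : ℝ) then 1 else 0) := by
    split_ifs <;> norm_num
  unfold wn
  refine (norm_sum_le _ _).trans ?_
  have h1 : ∀ d ∈ n.divisors, ‖a d * b (n / d) * Dm δ N η d (n / d)‖ ≤
      ℓ ^ 2 * (n.divisors.card : ℝ) ^ 2 *
        ((if (1 - δ) * N ≤ (n : ℝ) then 1 else 0) + 7 * (E * δ)) := by
    intro d hd
    have hdn := Nat.dvd_of_mem_divisors hd
    have hd1 : 1 ≤ d := Nat.pos_of_mem_divisors hd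
    have hdle : d ≤ n := Nat.le_of_dvd (by omega) hdn
    have he : d * (n / d) = n := Nat.mul_div_cancel' hdn
    have hk1 : 1 ≤ n / d := Nat.div_pos hdle (by omega)
    have hkle : n / d ≤ n := Nat.div_le_self _ _
    have hD := D_le (k := n / d) hδ hd1 (by rw [he]; exact hn.2) hη
    rw [he] at hD
    have hA := ha d (mem_Icc.2 ⟨hd1, hdle.trans hn.2⟩)
    have hB := hb (n / d) (mem_Icc.2 ⟨hk1, hkle.trans hn.2⟩)
    have hAd : (d.divisors.card : ℝ) ≤ n.divisors.card := by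
      exact_mod_cast card_le_card (Nat.divisors_subset_of_dvd (by omega) hdn)
    have hBd : ((n / d).divisors.card : ℝ) ≤ n.divisors.card := by
      exact_mod_cast card_le_card (Nat.divisors_subset_of_dvd (by omega) (Nat.div_dvd_of_dvd hdn))
    have hA' : ‖a d‖ ≤ ℓ * n.divisors.card := hA.trans (mul_le_mul_of_nonneg_left hAd hℓ)
    have hB' : ‖b (n / d)‖ ≤ ℓ * n.divisors.card := hB.trans (mul_le_mul_of_nonneg_left hBd hℓ)
    rw [norm_mul, norm_mul]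
    calc ‖a d‖ * ‖b (n / d)‖ * ‖Dm δ N η d (n / d)‖ ≤
        (ℓ * n.divisors.card) * (ℓ * n.divisors.card) *
          ((if (1 - δ) * N ≤ (n : ℝ) then 1 else 0) + 7 * (E * δ)) :=
          mul_le_mul (mul_le_mul hA' hB' (norm_nonneg _) (by positivity)) hD (norm_nonneg _)
            (by positivity)
      _ = _ := by ring
  refine (sum_le_sum h1).trans (le_of_eq ?_)
  rw [sum_const, nsmul_eq_mul]
  ring

open Classical in
lemma w_sum {δ η E ℓ : ℝ} {N p₁ p₂ : ℕ} (hp₁ : 2 ^ 12 = p₁) (hp₂ : 2 ^ 6 = p₂) (hδ : 0 < δ) (hη : N * |η| ≤ E) {a b : ℕ → ℂ}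
    (ha : ∀ m ∈ Icc 1 N, ‖a m‖ ≤ ℓ * (m.divisors.card : ℝ))
    (hb : ∀ m ∈ Icc 1 N, ‖b m‖ ≤ ℓ * (m.divisors.card : ℝ)) (hℓ : 0 ≤ ℓ) :
    ∃ S : ℝ, 0 ≤ S ∧ S ^ 2 ≤ (δ * N + 1) * (N * (1 + Real.log N) ^ p₁) ∧
      ∑ n ∈ Icc 1 N, ‖wn δ N η a b n‖ ^ 2 ≤
        2 * ℓ ^ 4 * (S + (7 * (E * δ)) ^ 2 * (N * (1 + Real.log N) ^ p₂)) := by
  have t12 := tau_pow_sum 12 N
  rw [hp₁] at t12
  have t6 := tau_pow_sum 6 N
  rw [hp₂] at t6
  clear hp₁ hp₂
  obtain ⟨T, hT⟩ : ∃ T : Finset ℕ, T = (Icc 1 N).filter fun n : ℕ => (1 - δ) * N ≤ (n : ℝ) := ⟨_, rfl⟩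
  refine ⟨∑ n ∈ T, (n.divisors.card : ℝ) ^ 6, sum_nonneg fun _ _ => by positivity, ?_, ?_⟩
  · have h1 : (∑ n ∈ T, (n.divisors.card : ℝ) ^ 6) ^ 2 ≤
        T.card * ∑ n ∈ T, ((n.divisors.card : ℝ) ^ 6) ^ 2 := sq_sum_le_card_mul_sum_sq
    have h2 : ∑ n ∈ T, ((n.divisors.card : ℝ) ^ 6) ^ 2 ≤ N * (1 + Real.log N) ^ p₁ := by
      have h3 : ∑ n ∈ T, ((n.divisors.card : ℝ) ^ 6) ^ 2 ≤
          ∑ n ∈ Icc 1 N, (n.divisors.card : ℝ) ^ 12 := by
        rw [hT]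
        refine (sum_le_sum_of_subset_of_nonneg (filter_subset _ _) fun _ _ _ => by positivity).trans
          (le_of_eq (sum_congr rfl fun n _ => ?_))
        rw [← pow_mul]
      exact h3.trans t12
    have h5 : (T.card : ℝ) ≤ δ * N + 1 := by
      have h6 : T ⊆ Icc ⌈(1 - δ) * N⌉₊ N := by
        intro n hn
        rw [hT, mem_filter, mem_Icc] at hn
        rw [mem_Icc]
        exact ⟨Nat.ceil_le.2 hn.2, hn.1.2⟩
      have h7 := card_le_card h6
      rw [Nat.card_Icc] at h7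
      have h8 : ((N + 1 - ⌈(1 - δ) * N⌉₊ : ℕ) : ℝ) ≤ δ * N + 1 := by
        have h9 : (1 - δ) * N ≤ (⌈(1 - δ) * N⌉₊ : ℝ) := Nat.le_ceil _
        rcases le_total (⌈(1 - δ) * (N : ℝ)⌉₊) (N + 1) with h10 | h10
        · rw [Nat.cast_sub h10]
          push_cast
          linarith
        · rw [Nat.sub_eq_zero_of_le h10]
          push_cast
          positivity
      exact le_trans (by exact_mod_cast h7) h8
    refine h1.trans (mul_le_mul h5 h2 (sum_nonneg fun _ _ => by positivity) (by positivity))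
  · have hE : 0 ≤ E := le_trans (by positivity) hη
    have h1 : ∀ n ∈ Icc 1 N, ‖wn δ N η a b n‖ ^ 2 ≤ 2 * ℓ ^ 4 *
        ((if (1 - δ) * N ≤ (n : ℝ) then (n.divisors.card : ℝ) ^ 6 else 0) +
          (7 * (E * δ)) ^ 2 * (n.divisors.card : ℝ) ^ 6) := by
      intro n hn
      have h2 := pow_le_pow_left₀ (norm_nonneg _) (w_le hδ hη ha hb hℓ hn) 2
      refine h2.trans ?_
      have h3 : ∀ x y : ℝ, (x + y) ^ 2 ≤ 2 * (x ^ 2 + y ^ 2) := fun x y => by
        nlinarith [sq_nonneg (x - y)]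
      have h4 : ((if (1 - δ) * N ≤ (n : ℝ) then (1 : ℝ) else 0)) ^ 2 =
          (if (1 - δ) * N ≤ (n : ℝ) then (1 : ℝ) else 0) := by
        by_cases hc : (1 - δ) * N ≤ (n : ℝ)
        · rw [if_pos hc, one_pow]
        · rw [if_neg hc, zero_pow two_ne_zero]
      have h5 := h3 (if (1 - δ) * N ≤ (n : ℝ) then (1 : ℝ) else 0) (7 * (E * δ))
      rw [h4] at h5
      have h6 : (if (1 - δ) * N ≤ (n : ℝ) then (n.divisors.card : ℝ) ^ 6 else 0) =
          (if (1 - δ) * N ≤ (n : ℝ) then (1 : ℝ) else 0) * (n.divisors.card : ℝ) ^ 6 := by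
        by_cases hc : (1 - δ) * N ≤ (n : ℝ)
        · rw [if_pos hc, if_pos hc, one_mul]
        · rw [if_neg hc, if_neg hc, zero_mul]
      rw [h6, mul_pow, mul_pow]
      calc (ℓ ^ 2) ^ 2 * ((n.divisors.card : ℝ) ^ 3) ^ 2 *
            ((if (1 - δ) * N ≤ (n : ℝ) then (1 : ℝ) else 0) + 7 * (E * δ)) ^ 2
          ≤ (ℓ ^ 2) ^ 2 * ((n.divisors.card : ℝ) ^ 3) ^ 2 *
            (2 * ((if (1 - δ) * N ≤ (n : ℝ) then (1 : ℝ) else 0) + (7 * (E * δ)) ^ 2)) :=
            mul_le_mul_of_nonneg_left h5 (mul_nonneg (sq_nonneg _) (sq_nonneg _))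
        _ = _ := by ring
    refine (sum_le_sum h1).trans ?_
    rw [← mul_sum, sum_add_distrib, ← mul_sum, ← sum_filter, ← hT]
    have h2ℓ : 0 ≤ 2 * ℓ ^ 4 := mul_nonneg zero_le_two (pow_nonneg hℓ 4)
    refine mul_le_mul_of_nonneg_left ?_ h2ℓ
    exact add_le_add le_rfl (mul_le_mul_of_nonneg_left t6 (sq_nonneg _))

/-- the coefficients of one class -/
noncomputable def ai (δ : ℝ) (a : ℕ → ℂ) (i m : ℕ) : ℂ := if ci δ m = i then a m else 0

/-- the decomposition, for one character -/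
lemma decomp {δ η : ℝ} {N I : ℕ} (hδ : 0 < δ) {a b : ℕ → ℂ} (ha : ∀ m, 1 ≤ m → a m ≠ 0 → m ≤ N ∧ ci δ m < I)
    (χ : ℕ → ℂ) (hχ : ∀ m k, χ (m * k) = χ m * χ k) :
    ∑ m ∈ Icc 1 N, ∑ k ∈ Icc 1 (N / m), a m * b k * (χ (m * k) * ee ((m * k : ℕ) * η)) =
      ∑ i ∈ range I, (∑ m ∈ Icc 1 (Xi δ i), ai δ a i m * χ m) *
        (∑ k ∈ Icc 1 (Yi δ N i), b k * ee (gi δ i * k * η) * χ k) +
      ∑ n ∈ Icc 1 N, wn δ N η a b n * χ n := by
  have e1 : ∑ n ∈ Icc 1 N, wn δ N η a b n * χ n =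
      ∑ m ∈ Icc 1 N, ∑ k ∈ Icc 1 (N / m), a m * b k * Dm δ N η m k * χ (m * k) := by
    rw [← dirC N (fun m k => a m * b k * Dm δ N η m k * χ (m * k))]
    refine sum_congr rfl fun n hn => ?_
    unfold wn
    rw [sum_mul]
    refine sum_congr rfl fun d hd => ?_
    rw [Nat.mul_div_cancel' (Nat.dvd_of_mem_divisors hd)]
  have e2 : ∑ i ∈ range I, (∑ m ∈ Icc 1 (Xi δ i), ai δ a i m * χ m) *
      (∑ k ∈ Icc 1 (Yi δ N i), b k * ee (gi δ i * k * η) * χ k) =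
      ∑ m ∈ Icc 1 N, a m * χ m *
        ∑ k ∈ Icc 1 (Yi δ N (ci δ m)), b k * ee (gi δ (ci δ m) * k * η) * χ k := by
    have e3 : ∀ i, ∑ m ∈ Icc 1 (Xi δ i), ai δ a i m * χ m = ∑ m ∈ Icc 1 N, ai δ a i m * χ m := by
      intro i
      have key : ∀ m, 1 ≤ m → ai δ a i m ≠ 0 → m ≤ N ∧ m ≤ Xi δ i := by
        intro m hm h0
        unfold ai at h0
        have h1 : ci δ m = i := by
          by_contra h
          exact h0 (if_neg h)
        rw [if_pos h1] at h0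
        refine ⟨(ha m hm h0).1, ?_⟩
        unfold Xi
        rw [← h1]
        exact Nat.le_floor (lt_gi hδ hm).le
      have k1 : ∑ m ∈ Icc 1 (Xi δ i), ai δ a i m * χ m =
          ∑ m ∈ Icc 1 (max N (Xi δ i)), ai δ a i m * χ m := by
        refine sum_subset (Icc_subset_Icc_right (le_max_right _ _)) fun m hm hm' => ?_
        rw [mem_Icc] at hm hm'
        by_contra h
        exact hm' ⟨hm.1, (key m hm.1 fun h0 => h (by rw [h0, zero_mul])).2⟩
      have k2 : ∑ m ∈ Icc 1 N, ai δ a i m * χ m =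
          ∑ m ∈ Icc 1 (max N (Xi δ i)), ai δ a i m * χ m := by
        refine sum_subset (Icc_subset_Icc_right (le_max_left _ _)) fun m hm hm' => ?_
        rw [mem_Icc] at hm hm'
        by_contra h
        exact hm' ⟨hm.1, (key m hm.1 fun h0 => h (by rw [h0, zero_mul])).1⟩
      rw [k1, k2]
    simp only [e3]
    simp only [sum_mul]
    rw [sum_comm]
    refine sum_congr rfl fun m hm => ?_
    rw [mem_Icc] at hm
    by_cases h0 : a m = 0
    · rw [h0, zero_mul, zero_mul]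
      refine sum_eq_zero fun i _ => ?_
      unfold ai
      rw [h0, ite_self, zero_mul, zero_mul]
    · rw [sum_eq_single (ci δ m)]
      · unfold ai
        rw [if_pos rfl]
      · intro i _ hi
        unfold ai
        rw [if_neg (Ne.symm hi), zero_mul, zero_mul]
      · intro h
        exact absurd (mem_range.2 (ha m hm.1 h0).2) h
  rw [e1, e2, ← sum_add_distrib]
  refine sum_congr rfl fun m hm => ?_
  rw [mem_Icc] at hm
  have hm0 : (0 : ℝ) < m := by exact_mod_cast hm.1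
  have hY : Yi δ N (ci δ m) ≤ N / m := by
    unfold Yi
    rw [← Nat.floor_div_eq_div (K := ℝ)]
    refine Nat.floor_le_floor ?_
    exact div_le_div_of_nonneg_left (Nat.cast_nonneg _) hm0 (lt_gi hδ hm.1).le
  have e4 : ∑ k ∈ Icc 1 (Yi δ N (ci δ m)), b k * ee (gi δ (ci δ m) * k * η) * χ k =
      ∑ k ∈ Icc 1 (N / m), b k * (if k ≤ Yi δ N (ci δ m) then ee (gi δ (ci δ m) * k * η) else 0) *
        χ k := by
    rw [← sum_subset (Icc_subset_Icc_right hY)]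
    · refine sum_congr rfl fun k hk => ?_
      rw [if_pos (mem_Icc.1 hk).2]
    · intro k hk hk'
      rw [mem_Icc] at hk hk'
      rw [if_neg (fun h => hk' ⟨hk.1, h⟩), mul_zero, zero_mul]
  rw [e4, mul_sum, ← sum_add_distrib]
  refine sum_congr rfl fun k _ => ?_
  unfold Dm
  rw [hχ]
  ring

end Pool.Agent.Y183.GJ
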