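import Pool.Agent.Y883.GJ.Stm
import Pool.Agent.Y183.GJ.Bil1

set_option autoImplicit false

/-! Project GJ (helper883), job BILMAJ: bilinear sums on the major arcs, few bad characters. -/

namespace Pool.Agent.Y183.GJ

open Finset
open Pool.Agent.H807R2.Dav (ee)
open Pool.Agent.Y883.GJ

/-- the norm of a sum of vectors `ev` -/
lemma norm_ev {q : ℕ} [NeZero q] (S : Finset (DirichletCharacter ℂ q)) (η : ℝ) (N : ℕ)
    (c : ℕ → ℕ → ℂ) :
    ‖∑ m ∈ Icc 1 N, ∑ k ∈ Icc 1 (N / m), (c m k) • ev S η (m * k)‖ ^ 2 =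
      ∑ χ ∈ S, ‖∑ m ∈ Icc 1 N, ∑ k ∈ Icc 1 (N / m),
        c m k * (χ ((m * k : ℕ) : ZMod q) * ee ((m * k : ℕ) * η))‖ ^ 2 := by
  classical
  rw [EuclideanSpace.norm_sq_eq]
  have h1 : ∀ χ : DirichletCharacter ℂ q,
      (∑ m ∈ Icc 1 N, ∑ k ∈ Icc 1 (N / m), (c m k) • ev S η (m * k)) χ =
      if χ ∈ S then ∑ m ∈ Icc 1 N, ∑ k ∈ Icc 1 (N / m),
        c m k * (χ ((m * k : ℕ) : ZMod q) * ee ((m * k : ℕ) * η)) else 0 := by
    intro χ
    have h2 : (∑ m ∈ Icc 1 N, ∑ k ∈ Icc 1 (N / m), (c m k) • ev S η (m * k)) χ =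
        EuclideanSpace.proj (𝕜 := ℂ) χ
          (∑ m ∈ Icc 1 N, ∑ k ∈ Icc 1 (N / m), (c m k) • ev S η (m * k)) := rfl
    rw [h2]
    simp only [map_sum, map_smul]
    have h3 : ∀ n : ℕ, EuclideanSpace.proj (𝕜 := ℂ) χ (ev S η n) =
        if χ ∈ S then χ (n : ZMod q) * ee (n * η) else 0 := by
      intro n
      show (if χ ∈ S then χ (n : ZMod q) * ee (n * η) else 0) = _
      rfl
    simp only [h3]
    by_cases h : χ ∈ S
    · simp only [if_pos h, smul_eq_mul]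
    · simp only [if_neg h, smul_zero, sum_const_zero]
  simp only [h1]
  rw [← sum_filter_add_sum_filter_not univ (fun χ => χ ∈ S)]
  have h4 : ∑ χ ∈ univ.filter (fun χ : DirichletCharacter ℂ q => ¬ χ ∈ S),
      ‖(if χ ∈ S then ∑ m ∈ Icc 1 N, ∑ k ∈ Icc 1 (N / m),
        c m k * (χ ((m * k : ℕ) : ZMod q) * ee ((m * k : ℕ) * η)) else 0)‖ ^ 2 = 0 := by
    refine sum_eq_zero fun χ hχ => ?_
    rw [if_neg (mem_filter.1 hχ).2, norm_zero, zero_pow two_ne_zero]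
  rw [h4, add_zero]
  have h5 : univ.filter (fun χ : DirichletCharacter ℂ q => χ ∈ S) = S := by
    ext χ
    simp
  rw [h5]
  refine sum_congr rfl fun χ hχ => ?_
  rw [if_pos hχ]

lemma sq_sum_norm (I : ℕ) (z : ℕ → ℂ) : ‖∑ i ∈ range I, z i‖ ^ 2 ≤ I * ∑ i ∈ range I, ‖z i‖ ^ 2 := by
  have h1 := pow_le_pow_left₀ (norm_nonneg _) (norm_sum_le (range I) z) 2
  have h2 : (∑ i ∈ range I, ‖z i‖) ^ 2 ≤ (range I).card * ∑ i ∈ range I, ‖z i‖ ^ 2 :=
    sq_sum_le_card_mul_sum_sq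
  rw [card_range] at h2
  exact h1.trans h2

/-- one class in the main part -/
lemma one_class (h1 : L2Stm) {q N i : ℕ} [NeZero q] {δ η ℓ T : ℝ} (hδ : 0 < δ) (hN : 1 ≤ N)
    (hℓ : 1 + Real.log N ≤ ℓ) {a b : ℕ → ℂ}
    (ha : ∀ m, 1 ≤ m → a m ≠ 0 → m * m ≤ N) (hqN : (q : ℝ) ^ 2 ≤ N)
    (hb : ∀ m ∈ Icc 1 N, ‖b m‖ ≤ ℓ * (m.divisors.card : ℝ))
    (S : Finset (DirichletCharacter ℂ q))
    (hS : ∀ χ ∈ S, ‖∑ m ∈ Icc 1 (Xi δ i), ai δ a i m * χ (m : ZMod q)‖ ≤ gi δ i * T) :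
    ∑ χ ∈ S, ‖(∑ m ∈ Icc 1 (Xi δ i), ai δ a i m * χ (m : ZMod q)) *
      (∑ k ∈ Icc 1 (Yi δ N i), b k * ee (gi δ i * k * η) * χ (k : ZMod q))‖ ^ 2 ≤
        T ^ 2 * (2 * N ^ 2 * (ℓ ^ 2 * ℓ ^ 4)) := by
  have hN0 : (0 : ℝ) < N := by exact_mod_cast hN
  have hℓ1 : 1 ≤ ℓ := by
    have := Real.log_natCast_nonneg N
    linarith
  have hg := gi_pos δ i
  by_cases htriv : ∀ m ∈ Icc 1 (Xi δ i), ai δ a i m = 0
  · have h2 : ∀ χ : DirichletCharacter ℂ q, ∑ m ∈ Icc 1 (Xi δ i), ai δ a i m * χ (m : ZMod q) = 0 :=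
      fun χ => sum_eq_zero fun m hm => by rw [htriv m hm, zero_mul]
    simp only [h2, zero_mul, norm_zero, zero_pow two_ne_zero, sum_const_zero]
    positivity
  · push Not at htriv
    obtain ⟨m, hm, hm0⟩ := htriv
    rw [mem_Icc] at hm
    have hci : ci δ m = i := by
      by_contra h
      exact hm0 (if_neg h)
    have ham : a m ≠ 0 := by
      unfold ai at hm0
      rwa [if_pos hci] at hm0
    have hgm : gi δ i ≤ m := by
      rw [← hci]
      exact gi_le hδ hm.1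
    have hmN : (m : ℝ) * m ≤ N := by exact_mod_cast ha m hm.1 ham
    have hqg : (q : ℝ) * gi δ i ≤ N := by
      have h3 : (q : ℝ) * m ≤ N := by
        have h4 : ((q : ℝ) - m) ^ 2 ≥ 0 := sq_nonneg _
        nlinarith
      exact (mul_le_mul_of_nonneg_left hgm (Nat.cast_nonneg _)).trans h3
    have hY : (Yi δ N i : ℝ) * gi δ i ≤ N := by
      have h3 : (Yi δ N i : ℝ) ≤ N / gi δ (i + 1) := Nat.floor_le (by
        have := gi_pos δ (i + 1)
        positivity)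
      have h4 : (N : ℝ) / gi δ (i + 1) ≤ N / gi δ i := by
        refine div_le_div_of_nonneg_left hN0.le hg ?_
        rw [gi_succ]
        have := Real.one_le_exp hδ.le
        nlinarith
      rw [← le_div_iff₀ hg]
      exact h3.trans h4
    have hYN : Yi δ N i ≤ N := by
      have h3 : gi δ i ≥ 1 := Real.one_le_exp (by positivity)
      have h4 : (Yi δ N i : ℝ) ≤ N := by
        have : (Yi δ N i : ℝ) * 1 ≤ Yi δ N i * gi δ i :=
          mul_le_mul_of_nonneg_left h3 (Nat.cast_nonneg _)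
        linarith
      exact_mod_cast h4
    have h3 : ∑ χ ∈ S, ‖(∑ m ∈ Icc 1 (Xi δ i), ai δ a i m * χ (m : ZMod q)) *
        (∑ k ∈ Icc 1 (Yi δ N i), b k * ee (gi δ i * k * η) * χ (k : ZMod q))‖ ^ 2 ≤
        (gi δ i * T) ^ 2 * ∑ χ : DirichletCharacter ℂ q,
          ‖∑ k ∈ Icc 1 (Yi δ N i), b k * ee (gi δ i * k * η) * χ (k : ZMod q)‖ ^ 2 := by
      rw [mul_sum]
      refine (sum_le_sum fun χ hχ => ?_).trans
        (sum_le_sum_of_subset_of_nonneg (subset_univ S) fun χ _ _ => by positivity)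
      rw [norm_mul, mul_pow]
      exact mul_le_mul_of_nonneg_right (pow_le_pow_left₀ (norm_nonneg _) (hS χ hχ) 2) (sq_nonneg _)
    have h4 := (h1 q (Yi δ N i) (fun k => b k * ee (gi δ i * k * η))).1
    have h5 : ∑ k ∈ Icc 1 (Yi δ N i), ‖b k * ee (gi δ i * k * η)‖ ^ 2 ≤
        ℓ ^ 2 * (Yi δ N i * ℓ ^ 4) := by
      have h6 : ∀ k ∈ Icc 1 (Yi δ N i), ‖b k * ee (gi δ i * k * η)‖ ^ 2 ≤
          ℓ ^ 2 * (k.divisors.card : ℝ) ^ 2 := by
        intro k hk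
        rw [mem_Icc] at hk
        rw [norm_mul, Pool.Agent.H807R2.Dav.norm_ee, mul_one, ← mul_pow]
        exact pow_le_pow_left₀ (norm_nonneg _) (hb k (mem_Icc.2 ⟨hk.1, hk.2.trans hYN⟩)) 2
      refine (sum_le_sum h6).trans ?_
      rw [← mul_sum]
      refine mul_le_mul_of_nonneg_left ?_ (by positivity)
      refine (Pool.Agent.TH935.LD.tau_pow_sum 2 (Yi δ N i)).trans ?_
      refine mul_le_mul_of_nonneg_left ?_ (Nat.cast_nonneg _)
      have h7 : 1 + Real.log (Yi δ N i) ≤ ℓ := by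
        rcases Nat.eq_zero_or_pos (Yi δ N i) with h8 | h8
        · rw [h8, Nat.cast_zero, Real.log_zero, add_zero]
          exact hℓ1
        · have : Real.log (Yi δ N i) ≤ Real.log N :=
            Real.log_le_log (by exact_mod_cast h8) (by exact_mod_cast hYN)
          linarith
      have h8 : 0 ≤ 1 + Real.log (Yi δ N i) := by
        have := Real.log_natCast_nonneg (Yi δ N i)
        linarith
      exact pow_le_pow_left₀ h8 h7 (2 ^ 2)
    have h6 : (gi δ i * T) ^ 2 * (((Yi δ N i : ℝ) + q) * (ℓ ^ 2 * (Yi δ N i * ℓ ^ 4))) ≤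
        T ^ 2 * (2 * N ^ 2 * (ℓ ^ 2 * ℓ ^ 4)) := by
      have h7 : gi δ i ^ 2 * (((Yi δ N i : ℝ) + q) * Yi δ N i) ≤ 2 * N ^ 2 := by
        have h8 : gi δ i ^ 2 * (((Yi δ N i : ℝ) + q) * Yi δ N i) =
            (Yi δ N i * gi δ i + q * gi δ i) * (Yi δ N i * gi δ i) := by ring
        rw [h8]
        have h9 : (Yi δ N i : ℝ) * gi δ i + q * gi δ i ≤ 2 * N := by linarith
        calc ((Yi δ N i : ℝ) * gi δ i + q * gi δ i) * (Yi δ N i * gi δ i) ≤ (2 * N) * N :=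
              mul_le_mul h9 hY (by positivity) (by positivity)
          _ = 2 * N ^ 2 := by ring
      calc (gi δ i * T) ^ 2 * (((Yi δ N i : ℝ) + q) * (ℓ ^ 2 * (Yi δ N i * ℓ ^ 4))) =
          (T ^ 2 * (ℓ ^ 2 * ℓ ^ 4)) * (gi δ i ^ 2 * (((Yi δ N i : ℝ) + q) * Yi δ N i)) := by ring
        _ ≤ (T ^ 2 * (ℓ ^ 2 * ℓ ^ 4)) * (2 * N ^ 2) := mul_le_mul_of_nonneg_left h7 (by positivity)
        _ = _ := by ring
    refine h3.trans ((mul_le_mul_of_nonneg_left (h4.trans ?_) (by positivity)).trans h6)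
    exact mul_le_mul_of_nonneg_left h5 (by positivity)

open Classical in
/-- one class in the count of the bad characters -/
lemma one_count {c : ℕ} (hc : ∀ (q X : ℕ) [NeZero q] (a : ℕ → ℂ) (ℓ T : ℝ), 1 ≤ X →
    1 + Real.log X ≤ ℓ → 0 < T → (∀ m ∈ Icc 1 X, ‖a m‖ ≤ ℓ * (m.divisors.card : ℝ)) →
    ((univ.filter (fun χ : DirichletCharacter ℂ q =>
      T < ‖∑ m ∈ Icc 1 X, a m * χ (m : ZMod q)‖)).card : ℝ) * T ^ 10 ≤
      ((X : ℝ) ^ 5 + q) * X ^ 5 * (5 * ℓ) ^ c)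
    {q N i K : ℕ} [NeZero q] {δ : ℝ} (hδ : 0 < δ) (hδ1 : δ ≤ 1) (hN : 9 ≤ N)
    (hL1 : 2000000 ≤ Real.log N) (hL2 : (10 : ℝ) ^ c ≤ Real.log N)
    {a : ℕ → ℂ} (ha : ∀ m ∈ Icc 1 N, ‖a m‖ ≤ Real.log N * (m.divisors.card : ℝ))
    (ha' : ∀ m, a m ≠ 0 → (N : ℝ) ^ (1 / 10 : ℝ) ≤ 2 * m ∧ m * m ≤ N)
    (hqN : (q : ℝ) ≤ (N : ℝ) ^ (1 / 2 : ℝ)) :
    ((univ.filter (fun χ : DirichletCharacter ℂ q =>
      gi δ i * (Real.log N ^ K)⁻¹ < ‖∑ m ∈ Icc 1 (Xi δ i), ai δ a i m * χ (m : ZMod q)‖)).card : ℝ) ≤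
      Real.log N ^ (10 * K + c + 2) := by
  obtain ⟨L, hL⟩ : ∃ L, L = Real.log (N : ℝ) := ⟨_, rfl⟩
  rw [← hL] at hL1 hL2 ha ⊢
  have hL0 : 0 < L := by linarith
  have hN0 : (0 : ℝ) < N := by
    have : (9 : ℝ) ≤ N := by exact_mod_cast hN
    linarith
  obtain ⟨g, hgd⟩ : ∃ g, g = gi δ i := ⟨_, rfl⟩
  have hg : 0 < g := by
    rw [hgd]
    exact gi_pos δ i
  by_cases htriv : ∀ m ∈ Icc 1 (Xi δ i), ai δ a i m = 0
  · have h2 : ∀ χ : DirichletCharacter ℂ q, ∑ m ∈ Icc 1 (Xi δ i), ai δ a i m * χ (m : ZMod q) = 0 :=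
      fun χ => sum_eq_zero fun m hm => by rw [htriv m hm, zero_mul]
    have h3 : (univ.filter (fun χ : DirichletCharacter ℂ q =>
        gi δ i * (L ^ K)⁻¹ < ‖∑ m ∈ Icc 1 (Xi δ i), ai δ a i m * χ (m : ZMod q)‖)) = ∅ := by
      refine filter_eq_empty_iff.2 fun χ _ => ?_
      rw [h2, norm_zero, not_lt, ← hgd]
      positivity
    rw [h3, card_empty, Nat.cast_zero]
    positivity
  · push Not at htriv
    obtain ⟨m, hm, hm0⟩ := htriv
    rw [mem_Icc] at hm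
    have hci : ci δ m = i := by
      by_contra h
      exact hm0 (if_neg h)
    have ham : a m ≠ 0 := by
      unfold ai at hm0
      rwa [if_pos hci] at hm0
    have hgm : g ≤ m := by
      rw [hgd, ← hci]
      exact gi_le hδ hm.1
    have hmg : (m : ℝ) ≤ gi δ (i + 1) := by
      rw [← hci]
      exact (lt_gi hδ hm.1).le
    obtain ⟨ham1, ham2⟩ := ha' m ham
    have hg3 : gi δ (i + 1) ≤ 3 * g := by
      rw [gi_succ, ← hgd, mul_comm]
      refine mul_le_mul_of_nonneg_right ?_ hg.le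
      have h3 := Real.exp_le_exp.2 hδ1
      have h4 := Real.exp_one_lt_d9
      linarith
    have hX : (Xi δ i : ℝ) ≤ 3 * g := (Nat.floor_le (gi_pos _ _).le).trans hg3
    have hX1 : 1 ≤ Xi δ i := hm.1.trans hm.2
    have hmN : (m : ℝ) * m ≤ N := by exact_mod_cast ham2
    have hXN : (Xi δ i : ℝ) ≤ N := by
      have h3 : (9 : ℝ) ≤ N := by exact_mod_cast hN
      have h4 : 3 * (m : ℝ) ≤ N := by nlinarith [sq_nonneg ((m : ℝ) - 3)]
      linarith
    have hlog : 1 + Real.log (Xi δ i) ≤ 2 * L := by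
      have : Real.log (Xi δ i) ≤ Real.log N :=
        Real.log_le_log (by exact_mod_cast hX1) hXN
      rw [← hL] at this
      linarith
    have hT : 0 < g * (L ^ K)⁻¹ := by positivity
    have h3 := hc q (Xi δ i) (ai δ a i) (2 * L) (g * (L ^ K)⁻¹) hX1 hlog hT (by
      intro j hj
      rw [mem_Icc] at hj
      unfold ai
      by_cases h : ci δ j = i
      · rw [if_pos h]
        by_cases h0 : a j = 0
        · rw [h0, norm_zero]
          positivity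
        · have hj2 : j ≤ N := by
            have h4 := (ha' j h0).2
            nlinarith [hj.1]
          refine (ha j (mem_Icc.2 ⟨hj.1, hj2⟩)).trans ?_
          refine mul_le_mul_of_nonneg_right (by linarith) (Nat.cast_nonneg _)
      · rw [if_neg h, norm_zero]
        positivity)
    rw [hgd] at h3
    obtain ⟨n, hn⟩ : ∃ n : ℝ, n = ((univ.filter (fun χ : DirichletCharacter ℂ q =>
      gi δ i * (L ^ K)⁻¹ < ‖∑ m ∈ Icc 1 (Xi δ i), ai δ a i m * χ (m : ZMod q)‖)).card : ℝ) :=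
        ⟨_, rfl⟩
    rw [← hn] at h3 ⊢
    rw [← hgd] at h3
    have hn0 : 0 ≤ n := by
      rw [hn]
      exact Nat.cast_nonneg _
    have hq5 : (q : ℝ) ≤ 7776 * g ^ 5 := by
      have h4 : (N : ℝ) ^ (1 / 2 : ℝ) = ((N : ℝ) ^ (1 / 10 : ℝ)) ^ 5 := by
        rw [← Real.rpow_natCast, ← Real.rpow_mul hN0.le]
        norm_num
      have h5 : (N : ℝ) ^ (1 / 10 : ℝ) ≤ 6 * g := by linarith
      calc (q : ℝ) ≤ ((N : ℝ) ^ (1 / 10 : ℝ)) ^ 5 := by
            rw [← h4]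
            exact hqN
        _ ≤ (6 * g) ^ 5 := pow_le_pow_left₀ (by positivity) h5 5
        _ = 7776 * g ^ 5 := by ring
    have hX5 : (Xi δ i : ℝ) ^ 5 ≤ 243 * g ^ 5 := by
      calc (Xi δ i : ℝ) ^ 5 ≤ (3 * g) ^ 5 := pow_le_pow_left₀ (Nat.cast_nonneg _) hX 5
        _ = 243 * g ^ 5 := by ring
    have h4 : ((Xi δ i : ℝ) ^ 5 + q) * (Xi δ i : ℝ) ^ 5 * (5 * (2 * L)) ^ c ≤
        (1948617 * L ^ (c + 1)) * g ^ 10 := by
      have h5 : (5 * (2 * L)) ^ c ≤ L ^ (c + 1) := by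
        rw [show 5 * (2 * L) = 10 * L by ring, mul_pow, pow_succ, mul_comm]
        exact mul_le_mul_of_nonneg_left hL2 (by positivity)
      calc ((Xi δ i : ℝ) ^ 5 + q) * (Xi δ i : ℝ) ^ 5 * (5 * (2 * L)) ^ c ≤
          (243 * g ^ 5 + 7776 * g ^ 5) * (243 * g ^ 5) * L ^ (c + 1) := by
            refine mul_le_mul (mul_le_mul (add_le_add hX5 hq5) hX5 (by positivity) (by positivity))
              h5 (by positivity) (by positivity)
        _ = _ := by ring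
    have h5 : n * (g * (L ^ K)⁻¹) ^ 10 ≤ (1948617 * L ^ (c + 1)) * g ^ 10 := h3.trans h4
    have h6 : (g * (L ^ K)⁻¹) ^ 10 = g ^ 10 * (L ^ (10 * K))⁻¹ := by
      rw [mul_pow, inv_pow, ← pow_mul, mul_comm K]
    rw [h6] at h5
    have h7 : n ≤ (1948617 * L ^ (c + 1)) * L ^ (10 * K) := by
      have h8 : 0 < g ^ 10 := by positivity
      have h9 : 0 < L ^ (10 * K) := by positivity
      have h10 : n * (L ^ (10 * K))⁻¹ ≤ 1948617 * L ^ (c + 1) := by
        have h11 : (n * (L ^ (10 * K))⁻¹) * g ^ 10 ≤ (1948617 * L ^ (c + 1)) * g ^ 10 := by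
          calc (n * (L ^ (10 * K))⁻¹) * g ^ 10 = n * (g ^ 10 * (L ^ (10 * K))⁻¹) := by ring
            _ ≤ _ := h5
        exact le_of_mul_le_mul_right h11 h8
      rwa [← div_eq_mul_inv, div_le_iff₀ h9] at h10
    refine h7.trans ?_
    calc (1948617 * L ^ (c + 1)) * L ^ (10 * K) ≤ (L * L ^ (c + 1)) * L ^ (10 * K) := by
          refine mul_le_mul_of_nonneg_right (mul_le_mul_of_nonneg_right ?_ ?_) ?_
          · linarith
          · positivity
          · positivity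
      _ = L ^ (10 * K + c + 2) := by
          rw [← pow_succ', ← pow_add]
          congr 1
          omega

open Classical in
/-- bilinear sums on the major arcs, all characters but few bad ones -/
theorem bilMaj (h1 : L2Stm) (h2 : CountStm) : BilMajStm := by
  intro A C ρ hρ
  obtain ⟨c, hc⟩ := h2
  obtain ⟨p₁, hp₁⟩ : ∃ p₁ : ℕ, 2 ^ 12 = p₁ := ⟨_, rfl⟩
  obtain ⟨p₂, hp₂⟩ : ∃ p₂ : ℕ, 2 ^ 6 = p₂ := ⟨_, rfl⟩
  have hp21 : p₂ ≤ p₁ := by
    rw [← hp₁, ← hp₂]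
    norm_num
  obtain ⟨K₂, hK₂⟩ : ∃ K₂ : ℕ, K₂ = A + 2 * C + p₁ + 20 := ⟨_, rfl⟩
  obtain ⟨K, hK⟩ : ∃ K : ℕ, K = 2 * K₂ + A + 8 := ⟨_, rfl⟩
  obtain ⟨n1, hn1⟩ := Pool.Agent.TH935.LD.ev_L' (2000000 + (10 : ℝ) ^ c)
  obtain ⟨n2, hn2⟩ := Pool.Agent.TH935.LD.log_pow_small (2 * K₂)
  refine ⟨2 * K₂ + 10 * K + c + 4, max (max n1 n2) 9, fun N hN q _ hq a b ha hb ha' => ?_⟩
  have hN1 : n1 ≤ N := le_trans (le_trans (le_max_left _ _) (le_max_left _ _)) hN
  have hN2 : n2 ≤ N := le_trans (le_trans (le_max_right _ _) (le_max_left _ _)) hN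
  have hN9 : 9 ≤ N := le_trans (le_max_right _ _) hN
  have hNr : (9 : ℝ) ≤ N := by exact_mod_cast hN9
  have hN0 : (0 : ℝ) < N := by linarith
  have hpow := hn2 N hN2
  have hLL := hn1 N hN1
  obtain ⟨L, hL⟩ : ∃ L, L = Real.log (N : ℝ) := ⟨_, rfl⟩
  have h10c : (0 : ℝ) < (10 : ℝ) ^ c := by positivity
  have hcount0 := fun (δ : ℝ) (hδ : 0 < δ) (hδ1 : δ ≤ 1) (i : ℕ) (hqN : (q : ℝ) ≤ (N : ℝ) ^ (1 / 2 : ℝ)) =>
    one_count (K := K) (i := i) hc hδ hδ1 hN9 (by linarith) (by linarith) ha ha' hqN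
  rw [← hL] at hpow hLL hcount0 ha hb ⊢
  have hL1 : 2000000 ≤ L := by linarith
  have hL0 : 0 < L := by linarith
  have hL1' : 1 ≤ L := by linarith
  have hqh : (q : ℝ) ≤ (N : ℝ) ^ (1 / 2 : ℝ) :=
    hq.trans (Real.rpow_le_rpow_of_exponent_le (by linarith) (by linarith))
  have hq2 : (q : ℝ) ^ 2 ≤ N := by
    calc (q : ℝ) ^ 2 ≤ ((N : ℝ) ^ (1 / 2 : ℝ)) ^ 2 := pow_le_pow_left₀ (Nat.cast_nonneg _) hqh 2
      _ = N := by
        rw [← Real.rpow_natCast, ← Real.rpow_mul hN0.le]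
        norm_num
  have hqN : (q : ℝ) ≤ N := by
    rcases le_total (q : ℝ) 1 with h | h
    · linarith
    · nlinarith
  obtain ⟨δ, hδd⟩ : ∃ δ : ℝ, δ = (L ^ (2 * K₂))⁻¹ := ⟨_, rfl⟩
  have hLp : 0 < L ^ (2 * K₂) := by positivity
  have hδ : 0 < δ := by
    rw [hδd]
    positivity
  have hδ1 : δ ≤ 1 := by
    rw [hδd]
    exact inv_le_one_of_one_le₀ (one_le_pow₀ hL1')
  have hδL : δ * L ^ (2 * K₂) = 1 := by
    rw [hδd, inv_mul_cancel₀ hLp.ne']
  obtain ⟨I, hI⟩ : ∃ I : ℕ, I = ⌊L / δ⌋₊ + 1 := ⟨_, rfl⟩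
  have hI1 : (I : ℝ) ≤ L ^ (2 * K₂ + 2) := by
    have h3 : L / δ = L * L ^ (2 * K₂) := by
      rw [hδd, div_inv_eq_mul]
    have h4 : ((⌊L / δ⌋₊ : ℕ) : ℝ) ≤ L * L ^ (2 * K₂) := by
      rw [← h3]
      exact Nat.floor_le (by positivity)
    have h5 : 1 ≤ L * L ^ (2 * K₂) := one_le_mul_of_one_le_of_one_le hL1' (one_le_pow₀ hL1')
    rw [hI]
    push_cast
    calc ((⌊L / δ⌋₊ : ℕ) : ℝ) + 1 ≤ 2 * (L * L ^ (2 * K₂)) := by linarith
      _ ≤ L * (L * L ^ (2 * K₂)) := mul_le_mul_of_nonneg_right (by linarith) (by positivity)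
      _ = L ^ (2 * K₂ + 2) := by ring
  have hI0 : (0 : ℝ) ≤ I := Nat.cast_nonneg _
  refine ⟨univ.filter (fun χ : DirichletCharacter ℂ q => ∃ i ∈ range I,
    gi δ i * (L ^ K)⁻¹ < ‖∑ m ∈ Icc 1 (Xi δ i), ai δ a i m * χ (m : ZMod q)‖), ?_, ?_⟩
  · -- the number of bad characters
    have h3 : univ.filter (fun χ : DirichletCharacter ℂ q => ∃ i ∈ range I,
        gi δ i * (L ^ K)⁻¹ < ‖∑ m ∈ Icc 1 (Xi δ i), ai δ a i m * χ (m : ZMod q)‖) ⊆
        (range I).biUnion (fun i => univ.filter (fun χ : DirichletCharacter ℂ q =>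
          gi δ i * (L ^ K)⁻¹ < ‖∑ m ∈ Icc 1 (Xi δ i), ai δ a i m * χ (m : ZMod q)‖)) := by
      intro χ hχ
      rw [mem_filter] at hχ
      obtain ⟨-, i, hi, h4⟩ := hχ
      rw [mem_biUnion]
      exact ⟨i, hi, mem_filter.2 ⟨mem_univ _, h4⟩⟩
    have h4 := (card_le_card h3).trans card_biUnion_le
    have h5 : ((univ.filter (fun χ : DirichletCharacter ℂ q => ∃ i ∈ range I,
        gi δ i * (L ^ K)⁻¹ < ‖∑ m ∈ Icc 1 (Xi δ i), ai δ a i m * χ (m : ZMod q)‖)).card : ℝ) ≤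
        ∑ i ∈ range I, ((univ.filter (fun χ : DirichletCharacter ℂ q =>
          gi δ i * (L ^ K)⁻¹ < ‖∑ m ∈ Icc 1 (Xi δ i), ai δ a i m * χ (m : ZMod q)‖)).card : ℝ) := by
      exact_mod_cast h4
    refine h5.trans ((sum_le_sum fun i _ => hcount0 δ hδ hδ1 i hqh).trans ?_)
    rw [sum_const, card_range, nsmul_eq_mul]
    calc (I : ℝ) * L ^ (10 * K + c + 2) ≤ L ^ (2 * K₂ + 2) * L ^ (10 * K + c + 2) :=
          mul_le_mul_of_nonneg_right hI1 (by positivity)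
      _ = L ^ (2 * K₂ + 10 * K + c + 4) := by
        rw [← pow_add]
        congr 1
        omega
  · intro η hη S hSB
    have hη' : N * |η| ≤ L ^ C := by
      rw [le_div_iff₀ hN0] at hη
      linarith
    -- the error
    obtain ⟨R, hR⟩ : ∃ R : ℝ, R = L ^ (A + 2 * C + 19) := ⟨_, rfl⟩
    have hR1 : 1 ≤ R := by
      rw [hR]
      exact one_le_pow₀ hL1'
    have hR0 : 0 < R := by linarith
    have hδR : δ * (L ^ (2 * p₁) * R ^ 2 * L ^ 2) = 1 := by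
      rw [← hδL]
      congr 1
      rw [hR, ← pow_mul, ← pow_add, ← pow_add]
      congr 1
      omega
    have hLpow : ∀ p : ℕ, (1 + L) ^ p ≤ L ^ (2 * p) := by
      intro p
      rw [pow_mul]
      exact pow_le_pow_left₀ (by positivity) (by nlinarith) p
    obtain ⟨Sv, hS0, hS1, hS2⟩ := w_sum hp₁ hp₂ hδ hη' ha hb hL0.le
    rw [← hL] at hS1 hS2
    clear hp₁ hp₂
    have hSv : Sv ≤ N / R := by
      have h3 : Sv ^ 2 ≤ (N / R) ^ 2 := by
        refine hS1.trans ?_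
        have h4 : δ * N + 1 ≤ 2 * (δ * N) := by
          have h5 : 1 ≤ δ * N := by
            calc (1 : ℝ) = δ * L ^ (2 * K₂) := hδL.symm
              _ ≤ δ * N := mul_le_mul_of_nonneg_left (by linarith) hδ.le
          linarith
        have h6 : (δ * N + 1) * (N * (1 + L) ^ p₁) ≤ 2 * (δ * N) * (N * L ^ (2 * p₁)) :=
          mul_le_mul h4 (mul_le_mul_of_nonneg_left (hLpow p₁) hN0.le) (by positivity) (by positivity)
        refine h6.trans ?_
        rw [div_pow, le_div_iff₀ (by positivity)]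
        have h7 : 2 * (δ * N) * (N * L ^ (2 * p₁)) * R ^ 2 =
            N ^ 2 * (2 * (δ * (L ^ (2 * p₁) * R ^ 2))) := by ring
        rw [h7]
        have h8 : 2 * (δ * (L ^ (2 * p₁) * R ^ 2)) ≤ 1 := by
          have h9 : δ * (L ^ (2 * p₁) * R ^ 2) * L ^ 2 = 1 := by
            rw [← hδR]
            ring
          have h10 : 0 ≤ δ * (L ^ (2 * p₁) * R ^ 2) := by positivity
          have h11 : 2 ≤ L ^ 2 := by nlinarith
          nlinarith
        calc (N : ℝ) ^ 2 * (2 * (δ * (L ^ (2 * p₁) * R ^ 2))) ≤ N ^ 2 * 1 :=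
              mul_le_mul_of_nonneg_left h8 (by positivity)
          _ = N ^ 2 := mul_one _
      exact (pow_le_pow_iff_left₀ hS0 (by positivity) two_ne_zero).1 h3
    have hSw : (7 * (L ^ C * δ)) ^ 2 * (N * (1 + L) ^ p₂) ≤ N / R := by
      rw [le_div_iff₀ hR0]
      have h3 : (1 + L) ^ p₂ ≤ L ^ (2 * p₁) :=
        (hLpow p₂).trans (pow_le_pow_right₀ hL1' (by omega))
      have h4 : 49 * L ^ (2 * C) * δ ≤ 1 := by
        calc 49 * L ^ (2 * C) * δ ≤ L ^ (2 * K₂) * δ := by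
              refine mul_le_mul_of_nonneg_right ?_ hδ.le
              calc 49 * L ^ (2 * C) ≤ L * L ^ (2 * C) :=
                    mul_le_mul_of_nonneg_right (by linarith) (by positivity)
                _ = L ^ (2 * C + 1) := by ring
                _ ≤ L ^ (2 * K₂) := pow_le_pow_right₀ hL1' (by omega)
          _ = 1 := by rw [mul_comm, hδL]
      have h5 : δ * L ^ (2 * p₁) * R ≤ 1 := by
        have h6 : R ≤ R ^ 2 * L ^ 2 := by
          have h7 : R * 1 ≤ R * (R * L ^ 2) :=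
            mul_le_mul_of_nonneg_left (one_le_mul_of_one_le_of_one_le hR1 (one_le_pow₀ hL1')) hR0.le
          calc R = R * 1 := (mul_one R).symm
            _ ≤ R * (R * L ^ 2) := h7
            _ = R ^ 2 * L ^ 2 := by ring
        calc δ * L ^ (2 * p₁) * R ≤ δ * L ^ (2 * p₁) * (R ^ 2 * L ^ 2) :=
              mul_le_mul_of_nonneg_left h6 (by positivity)
          _ = 1 := by
            rw [← hδR]
            ring
      have h6 : (7 * (L ^ C * δ)) ^ 2 * (N * (1 + L) ^ p₂) * R ≤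
          (49 * L ^ (2 * C) * δ) * (δ * L ^ (2 * p₁) * R) * N := by
        have h7 : (7 * (L ^ C * δ)) ^ 2 = 49 * L ^ (2 * C) * δ * δ := by
          rw [pow_mul']
          ring
        rw [h7]
        calc 49 * L ^ (2 * C) * δ * δ * (N * (1 + L) ^ p₂) * R =
            (49 * L ^ (2 * C) * δ * δ * N * R) * (1 + L) ^ p₂ := by ring
          _ ≤ (49 * L ^ (2 * C) * δ * δ * N * R) * L ^ (2 * p₁) :=
            mul_le_mul_of_nonneg_left h3 (by positivity)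
          _ = _ := by ring
      refine h6.trans ?_
      calc (49 * L ^ (2 * C) * δ) * (δ * L ^ (2 * p₁) * R) * N ≤ (1 * 1) * N := by
            refine mul_le_mul_of_nonneg_right ?_ hN0.le
            exact mul_le_mul h4 h5 (by positivity) zero_le_one
        _ = N := by ring
    have herr : ∑ χ ∈ S, ‖∑ n ∈ Icc 1 N, wn δ N η a b n * χ (n : ZMod q)‖ ^ 2 ≤
        (2 * N) * (2 * L ^ 4 * (2 * (N / R))) := by
      have h3 := (h1 q N (wn δ N η a b)).1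
      have h4 : ∑ χ ∈ S, ‖∑ n ∈ Icc 1 N, wn δ N η a b n * χ (n : ZMod q)‖ ^ 2 ≤
          ∑ χ : DirichletCharacter ℂ q, ‖∑ n ∈ Icc 1 N, wn δ N η a b n * χ (n : ZMod q)‖ ^ 2 :=
        sum_le_sum_of_subset_of_nonneg (subset_univ S) fun χ _ _ => by positivity
      refine h4.trans (h3.trans ?_)
      refine mul_le_mul (by linarith) (hS2.trans ?_) (sum_nonneg fun _ _ => by positivity)
        (by positivity)
      exact mul_le_mul_of_nonneg_left (by linarith) (by positivity)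
    -- the main part
    have hmain : ∑ χ ∈ S, ‖∑ i ∈ range I, (∑ m ∈ Icc 1 (Xi δ i), ai δ a i m * χ (m : ZMod q)) *
        (∑ k ∈ Icc 1 (Yi δ N i), b k * ee (gi δ i * k * η) * χ (k : ZMod q))‖ ^ 2 ≤
        I * (I * (((L ^ K)⁻¹) ^ 2 * (2 * N ^ 2 * ((2 * L) ^ 2 * (2 * L) ^ 4)))) := by
      refine (sum_le_sum fun χ _ => sq_sum_norm I _).trans ?_
      rw [← mul_sum, sum_comm]
      refine mul_le_mul_of_nonneg_left ?_ hI0
      have h3 : ∀ i ∈ range I, ∑ χ ∈ S, ‖(∑ m ∈ Icc 1 (Xi δ i), ai δ a i m * χ (m : ZMod q)) *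
          (∑ k ∈ Icc 1 (Yi δ N i), b k * ee (gi δ i * k * η) * χ (k : ZMod q))‖ ^ 2 ≤
          ((L ^ K)⁻¹) ^ 2 * (2 * N ^ 2 * ((2 * L) ^ 2 * (2 * L) ^ 4)) := by
        intro i hi
        refine one_class h1 hδ (by omega) (by rw [← hL]; linarith) (fun m _ h => (ha' m h).2) hq2 ?_ S ?_
        · intro m hm
          refine (hb m hm).trans (mul_le_mul_of_nonneg_right (by linarith) (Nat.cast_nonneg _))
        · intro χ hχ
          by_contra hcon
          rw [not_le] at hcon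
          exact disjoint_left.1 hSB hχ (mem_filter.2 ⟨mem_univ _, i, hi, hcon⟩)
      refine (sum_le_sum h3).trans (le_of_eq ?_)
      rw [sum_const, card_range, nsmul_eq_mul]
    -- the decomposition
    rw [norm_ev S η N (fun m k => a m * b k)]
    have hdec : ∀ χ : DirichletCharacter ℂ q, ‖∑ m ∈ Icc 1 N, ∑ k ∈ Icc 1 (N / m),
        a m * b k * (χ ((m * k : ℕ) : ZMod q) * ee ((m * k : ℕ) * η))‖ ^ 2 ≤
        2 * ‖∑ i ∈ range I, (∑ m ∈ Icc 1 (Xi δ i), ai δ a i m * χ (m : ZMod q)) *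
        (∑ k ∈ Icc 1 (Yi δ N i), b k * ee (gi δ i * k * η) * χ (k : ZMod q))‖ ^ 2 +
        2 * ‖∑ n ∈ Icc 1 N, wn δ N η a b n * χ (n : ZMod q)‖ ^ 2 := by
      intro χ
      have h3 := decomp (η := η) (N := N) (I := I) hδ (a := a) (b := b) (by
        intro m hm h0
        have h4 := (ha' m h0).2
        have h5 : m ≤ N := by nlinarith
        refine ⟨h5, ?_⟩
        rw [hI, Nat.lt_succ_iff]
        unfold ci
        refine Nat.floor_le_floor (div_le_div_of_nonneg_right ?_ hδ.le)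
        rw [hL]
        exact Real.log_le_log (by exact_mod_cast hm) (by exact_mod_cast h5))
        (fun n => χ (n : ZMod q)) (fun m k => by rw [Nat.cast_mul, map_mul])
      rw [h3]
      refine (pow_le_pow_left₀ (norm_nonneg _) (norm_add_le _ _) 2).trans ?_
      have h4 : ∀ x y : ℝ, (x + y) ^ 2 ≤ 2 * x ^ 2 + 2 * y ^ 2 := fun x y => by
        nlinarith [sq_nonneg (x - y)]
      exact h4 _ _
    refine (sum_le_sum fun χ _ => hdec χ).trans ?_
    rw [sum_add_distrib, ← mul_sum, ← mul_sum]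
    have hA0 : 0 < L ^ A := by positivity
    have f1 : 2 * (I * (I * (((L ^ K)⁻¹) ^ 2 * (2 * N ^ 2 * ((2 * L) ^ 2 * (2 * L) ^ 4))))) ≤
        (N : ℝ) ^ 2 / L ^ A / 2 := by
      rw [div_div, le_div_iff₀ (by positivity)]
      have h3 : (I : ℝ) * I ≤ L ^ (2 * K₂ + 2) * L ^ (2 * K₂ + 2) :=
        mul_le_mul hI1 hI1 hI0 (by positivity)
      have h4 : ((L ^ K)⁻¹) ^ 2 * (L ^ (2 * K₂ + 2) * L ^ (2 * K₂ + 2) * L ^ 11 * L ^ A) ≤ 1 := by
        rw [inv_pow, ← pow_mul, ← pow_add, ← pow_add, ← pow_add, inv_mul_le_iff₀ (by positivity),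
          mul_one]
        exact pow_le_pow_right₀ hL1' (by omega)
      have h5 : 512 * L ^ 6 ≤ L ^ 11 := by
        have h6 : (512 : ℝ) ≤ L ^ 5 := by
          calc (512 : ℝ) ≤ L := by linarith
            _ = L ^ 1 := (pow_one L).symm
            _ ≤ L ^ 5 := pow_le_pow_right₀ hL1' (by norm_num)
        calc 512 * L ^ 6 ≤ L ^ 5 * L ^ 6 := mul_le_mul_of_nonneg_right h6 (by positivity)
          _ = L ^ 11 := by ring
      calc 2 * ((I : ℝ) * (I * (((L ^ K)⁻¹) ^ 2 * (2 * N ^ 2 * ((2 * L) ^ 2 * (2 * L) ^ 4))))) *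
            (L ^ A * 2) = ((I : ℝ) * I) * (((L ^ K)⁻¹) ^ 2 * N ^ 2 * L ^ A * (512 * L ^ 6)) := by ring
        _ ≤ (L ^ (2 * K₂ + 2) * L ^ (2 * K₂ + 2)) * (((L ^ K)⁻¹) ^ 2 * N ^ 2 * L ^ A * L ^ 11) :=
          mul_le_mul h3 (mul_le_mul_of_nonneg_left h5 (by positivity)) (by positivity) (by positivity)
        _ = N ^ 2 * (((L ^ K)⁻¹) ^ 2 * (L ^ (2 * K₂ + 2) * L ^ (2 * K₂ + 2) * L ^ 11 * L ^ A)) := by
          ring
        _ ≤ N ^ 2 * 1 := mul_le_mul_of_nonneg_left h4 (by positivity)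
        _ = N ^ 2 := mul_one _
    have f2 : 2 * ((2 * N) * (2 * L ^ 4 * (2 * (N / R)))) ≤ (N : ℝ) ^ 2 / L ^ A / 2 := by
      have h3 : 2 * ((2 * N) * (2 * L ^ 4 * (2 * (N / R)))) = 16 * L ^ 4 * N ^ 2 / R := by ring
      rw [h3, div_div, div_le_div_iff₀ hR0 (by positivity)]
      have h4 : 32 * L ^ 4 * L ^ A ≤ R := by
        rw [hR]
        calc 32 * L ^ 4 * L ^ A ≤ L * L ^ 4 * L ^ A := by
              refine mul_le_mul_of_nonneg_right (mul_le_mul_of_nonneg_right (by linarith) ?_) ?_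
              · positivity
              · positivity
          _ = L ^ (A + 5) := by ring
          _ ≤ L ^ (A + 2 * C + 19) := pow_le_pow_right₀ hL1' (by omega)
      calc 16 * L ^ 4 * N ^ 2 * (L ^ A * 2) = N ^ 2 * (32 * L ^ 4 * L ^ A) := by ring
        _ ≤ N ^ 2 * R := mul_le_mul_of_nonneg_left h4 (by positivity)
    have f3 := mul_le_mul_of_nonneg_left hmain zero_le_two
    have f4 := mul_le_mul_of_nonneg_left herr zero_le_two
    linarith

end Pool.Agent.Y183.GJ
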